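import Mathlib

namespace Pool.Agent.Results.MP_1909e4_lc.No

/-- unimodal formulas -/
inductive Fm
  | var (p : ℕ) | neg (φ : Fm) | and (φ ψ : Fm) | box (φ : Fm)

def imp (φ ψ : Fm) : Fm := .neg (.and φ (.neg ψ))

def sub (σ : ℕ → Fm) : Fm → Fm
  | .var p => σ p
  | .neg φ => .neg (sub σ φ)
  | .and φ ψ => .and (sub σ φ) (sub σ ψ)
  | .box φ => .box (sub σ φ)

def Sat {W : Type} (R : W → W → Prop) (V : ℕ → Set W) : Fm → W → Prop
  | .var p, w => w ∈ V p
  | .neg φ, w => ¬ Sat R V φ w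
  | .and φ ψ, w => Sat R V φ w ∧ Sat R V ψ w
  | .box φ, w => ∀ x, R w x → Sat R V φ x

/-- the logic of a frame -/
def Log {W : Type} (R : W → W → Prop) : Set Fm := {φ | ∀ V w, Sat R V φ w}

/-- L is a normal extension of L0 -/
def IsExt (L0 L : Set Fm) : Prop :=
  L0 ⊆ L ∧ (∀ φ σ, φ ∈ L → sub σ φ ∈ L) ∧ (∀ φ ψ, φ ∈ L → imp φ ψ ∈ L → ψ ∈ L) ∧
    ∀ φ, φ ∈ L → Fm.box φ ∈ L

/-- finite model property -/
def FMP (L : Set Fm) : Prop :=
  ∀ φ ∉ L, ∃ (m : ℕ) (R : Fin m → Fin m → Prop), L ⊆ Log R ∧ φ ∉ Log R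

theorem sat_sub {W : Type} (R : W → W → Prop) (V : ℕ → Set W) (σ : ℕ → Fm) (φ : Fm) (w : W) :
    Sat R V (sub σ φ) w ↔ Sat R (fun p => {x | Sat R V (σ p) x}) φ w := by
  induction φ generalizing w <;> simp_all [sub, Sat]

abbrev W := ℕ ⊕ {p : ℕ × ℕ // p.1 + p.2 ≤ 2}

def R : W → W → Prop
  | .inl k, .inl j => j = k ∨ j + 2 ≤ k ∨ j = 0
  | .inl _, .inr _ => False
  | .inr _, .inl _ => True
  | .inr p, .inr q => p.1.1 ≤ q.1.1 ∧ p.1.2 ≤ q.1.2

def g (K : ℕ) (x y : ℕ) : W :=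
  if h : x + y ≤ 2 then .inr ⟨(x, y), h⟩ else .inl (K - (2 * x + 3 * y))

theorem g_mono (K : ℕ) {x y x' y' : ℕ} (h1 : x ≤ x') (h2 : y ≤ y') : R (g K x y) (g K x' y') := by
  unfold g
  split_ifs with a b b
  · exact ⟨h1, h2⟩
  · trivial
  · omega
  · show _ ∨ _
    omega

theorem two_three (d : ℕ) (h : d ≠ 1) : ∃ a b, d = 2 * a + 3 * b := by
  rcases Nat.even_or_odd' d with ⟨a, e | e⟩
  · exact ⟨a, 0, by omega⟩
  · exact ⟨a - 1, 1, by omega⟩

theorem g_back (K x y : ℕ) (w : W) (h : R (g K x y) w)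
    (hw : ∀ j, w = .inl j → x + y ≤ 2 → j + 20 ≤ K) :
    ∃ x' y', x ≤ x' ∧ y ≤ y' ∧ g K x' y' = w := by
  unfold g at h
  rcases w with j | q
  · split_ifs at h with a
    · have := hw j rfl a
      obtain ⟨c, d, e⟩ := two_three (K - (2 * (x + 3) + 3 * y) - j) (by omega)
      refine ⟨x + 3 + c, y + d, by omega, by omega, ?_⟩
      unfold g
      rw [dif_neg (by omega)]
      congr 1
      omega
    · by_cases hj : j = 0
      · refine ⟨x + K, y, by omega, by omega, ?_⟩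
        unfold g
        rw [dif_neg (by omega)]
        congr 1
        omega
      · have h' : j = K - (2 * x + 3 * y) ∨ j + 2 ≤ K - (2 * x + 3 * y) ∨ j = 0 := h
        obtain ⟨c, d, e⟩ := two_three (K - (2 * x + 3 * y) - j) (by omega)
        refine ⟨x + c, y + d, by omega, by omega, ?_⟩
        unfold g
        rw [dif_neg (by omega)]
        congr 1
        omega
  · split_ifs at h with a
    · refine ⟨q.1.1, q.1.2, h.1, h.2, ?_⟩
      unfold g
      rw [dif_pos q.2]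
    · exact h.elim

theorem transfer (n : ℕ) (V : ℕ → Set W) (φ : Fm) : ∃ K0, ∀ K, K0 ≤ K → ∀ u : Fin (n + 2) → ℕ,
    Sat (· ≤ ·) (fun p => {u : Fin (n + 2) → ℕ | g K (u 0) (u 1) ∈ V p}) φ u ↔
      Sat R V φ (g K (u 0) (u 1)) := by
  induction φ with
  | var p => exact ⟨0, fun K _ u => Iff.rfl⟩
  | neg φ i =>
    obtain ⟨K0, h⟩ := i
    exact ⟨K0, fun K hK u => not_congr (h K hK u)⟩
  | and φ ψ i1 i2 =>
    obtain ⟨K1, h1⟩ := i1
    obtain ⟨K2, h2⟩ := i2
    exact ⟨max K1 K2, fun K hK u =>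
      and_congr (h1 K (le_of_max_le_left hK) u) (h2 K (le_of_max_le_right hK) u)⟩
  | box φ i =>
    obtain ⟨K0, h⟩ := i
    have : ∃ j0, (∃ j, ¬ Sat R V φ (.inl j)) → ¬ Sat R V φ (.inl j0) := by
      by_cases e : ∃ j, ¬ Sat R V φ (.inl j)
      · exact ⟨e.choose, fun _ => e.choose_spec⟩
      · exact ⟨0, fun e' => absurd e' e⟩
    obtain ⟨j0, hj0⟩ := this
    refine ⟨max K0 (j0 + 20), fun K hK u => ⟨fun H => ?_, fun H v hv =>
      (h K (le_of_max_le_left hK) v).2 (H _ (g_mono K (hv 0) (hv 1)))⟩⟩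
    have key : ∀ w, R (g K (u 0) (u 1)) w → (∀ j, w = .inl j → u 0 + u 1 ≤ 2 → j + 20 ≤ K) →
        Sat R V φ w := by
      intro w hw hw'
      obtain ⟨x, y, hx, hy, e⟩ := g_back K _ _ w hw hw'
      have := (h K (le_of_max_le_left hK) (Function.update (Function.update u 0 x) 1 y)).1
        (H _ (by
          intro i
          by_cases a : i = 1
          · subst a; simpa using hy
          · by_cases b : i = 0
            · subst b; simpa using hx
            · simp [a, b]))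
      simpa [e] using this
    intro w hw
    by_cases a : u 0 + u 1 ≤ 2
    · rcases w with j | q
      · by_contra c
        refine hj0 ⟨j, c⟩ (key _ ?_ ?_)
        · unfold g; rw [dif_pos a]; trivial
        · rintro j' ⟨rfl⟩ _
          exact le_of_max_le_right hK
      · exact key _ hw (by rintro j ⟨⟩)
    · exact key w hw (fun _ _ b => absurd b a)

theorem ext (n : ℕ) : Log (fun u v : Fin (n + 2) → ℕ => u ≤ v) ⊆ Log R := by
  intro φ hφ V w
  obtain ⟨K0, h⟩ := transfer n V φ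
  have : ∃ K, K0 ≤ K ∧ ∃ x y, g K x y = w := by
    rcases w with j | q
    · refine ⟨j + 2 * (K0 + 3), by omega, K0 + 3, 0, ?_⟩
      unfold g
      rw [dif_neg (by omega)]
      congr 1
      omega
    · refine ⟨K0, le_rfl, q.1.1, q.1.2, ?_⟩
      unfold g
      rw [dif_pos q.2]
  obtain ⟨K, hK, x, y, e⟩ := this
  have := (h K hK (Function.update (fun _ => x) 1 y)).1 (hφ _ _)
  simpa [e] using this

def dia (φ : Fm) : Fm := .neg (.box (.neg φ))

theorem sat_dia {X : Type} (S : X → X → Prop) (V : ℕ → Set X) (φ : Fm) (w : X) :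
    Sat S V (dia φ) w ↔ ∃ x, S w x ∧ Sat S V φ x := by
  simp [dia, Sat]

def del : ℕ → Fm
  | 0 => dia (.var 0)
  | 1 => dia (.var 1)
  | 2 => dia (.var 2)
  | k + 3 => dia (.and (del k) (.and (del (k + 1)) (.neg (del (k + 2)))))

def nd (p : ℕ) : Fm := .neg (dia (.var p))

def psi : Fm :=
  .and (dia (.and (.var 4) (.and (nd 3) (nd 5)))) (.and (dia (.and (.var 5) (.and (nd 3) (nd 4))))
    (dia (.and (.var 3) (.and (nd 4) (.and (nd 5)
      (.and (dia (.and (nd 3) (.and (del 1) (.and (.neg (del 0)) (.neg (del 2))))))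
        (.and (dia (.and (nd 3) (.and (del 0) (.and (del 1) (.neg (del 2))))))
          (dia (.and (nd 3) (.and (del 2) (.neg (del 1))))))))))))

theorem R_refl (w : W) : R w w := by
  rcases w with j | q
  · exact .inl rfl
  · exact ⟨le_rfl, le_rfl⟩

theorem R_trans {a b c : W} (h1 : R a b) (h2 : R b c) : R a c := by
  rcases a with a | a <;> rcases b with b | b <;> rcases c with c | c <;> simp only [R] at * <;>
    omega

theorem anti {w a b c : W} (ha : R w a) (hb : R w b) (hc : R w c) (ab : ¬ R a b) (ba : ¬ R b a)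
    (ac : ¬ R a c) (ca : ¬ R c a) (bc : ¬ R b c) (cb : ¬ R c b) :
    (∀ j, R w (.inl j)) ∧ ∀ x, R a x → ¬ R x a → ∃ j, x = .inl j := by
  rcases a with a | ⟨⟨a1, a2⟩, a⟩ <;> rcases b with b | ⟨⟨b1, b2⟩, b⟩ <;>
    rcases c with c | ⟨⟨c1, c2⟩, c⟩ <;> simp only [R, not_true_eq_false] at ab ba ac ca bc cb
  · omega
  · refine ⟨fun j => R_trans ha trivial, ?_⟩
    rintro (j | ⟨⟨x1, x2⟩, x⟩) h1 h2
    · exact ⟨j, rfl⟩
    · simp only [R] at h1 h2 a b c x
      omega

theorem del_down (V : ℕ → Set W) (k : ℕ) {a b : W} (h : R a b) (hb : Sat R V (del k) b) :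
    Sat R V (del k) a := by
  rcases k with _ | _ | _ | k <;> simp only [del, sat_dia] at hb ⊢ <;>
    obtain ⟨x, h1, h2⟩ := hb <;> exact ⟨x, R_trans h h1, h2⟩

theorem main (V : ℕ → Set W) (w : W) (h : Sat R V psi w) :
    (∀ j, R w (.inl j)) ∧ ∃ m, 1 ≤ m ∧ ∀ k j, Sat R V (del (k + 1)) (.inl j) ↔
      (j = m + k ∨ m + k + 2 ≤ j) := by
  simp only [psi, Sat, sat_dia, nd, not_exists, not_and] at h
  obtain ⟨⟨b, hb, b4, b3, b5⟩, ⟨c, hc, c5, c3, c4⟩, a, ha, a3, a4, a5,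
    ⟨x, hx, x3, x1, x0, x2⟩, ⟨y, hy, y3, y0, y1, y2⟩, z, hz, z3, z2, z1⟩ := h
  obtain ⟨h1, h2⟩ := anti ha hb hc (fun e => a4 b e b4) (fun e => b3 a e a3) (fun e => a5 c e c5)
    (fun e => c3 a e a3) (fun e => b5 c e c5) (fun e => c4 b e b4)
  obtain ⟨x, rfl⟩ := h2 x hx (fun e => x3 a e a3)
  obtain ⟨y, rfl⟩ := h2 y hy (fun e => y3 a e a3)
  obtain ⟨z, rfl⟩ := h2 z hz (fun e => z3 a e a3)
  have yz : ¬ R (.inl y) (.inl z) := fun e => y2 (del_down V 2 e z2)
  have zy : ¬ R (.inl z) (.inl y) := fun e => z1 (del_down V 1 e y1)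
  have xy : ¬ R (.inl x) (.inl y) := fun e => x0 (del_down V 0 e y0)
  have xz : ¬ R (.inl x) (.inl z) := fun e => x2 (del_down V 2 e z2)
  have zx : ¬ R (.inl z) (.inl x) := fun e => z1 (del_down V 1 e x1)
  simp only [R] at yz zy xy xz zx
  obtain rfl : z = x + 1 := by omega
  obtain rfl : y = x + 2 := by omega
  have gen : ∀ k m, 1 ≤ m → Sat R V (del k) (.inl m) → ¬ Sat R V (del k) (.inl (m + 1)) →
      ∀ j, Sat R V (del k) (.inl j) ↔ (j = m ∨ m + 2 ≤ j) := by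
    intro k m hm e1 e2 j
    constructor
    · intro e
      have : ¬ R (.inl (m + 1)) (.inl j) := fun f => e2 (del_down V k f e)
      simp only [R] at this
      omega
    · intro e
      exact del_down V k (a := .inl j) (b := .inl m) (by simp only [R]; omega) e1
  have next : ∀ k m, 1 ≤ m → (∀ j, (Sat R V (del k) (.inl j) ∧ Sat R V (del (k + 1)) (.inl j) ∧
      ¬ Sat R V (del (k + 2)) (.inl j)) ↔ j = m) →
      ∀ j, Sat R V (del (k + 3)) (.inl j) ↔ (j = m ∨ m + 2 ≤ j) := by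
    intro k m hm e j
    simp only [del, sat_dia, Sat]
    constructor
    · rintro ⟨i | q, f1, f2⟩
      · rw [e] at f2
        simp only [R] at f1
        omega
      · exact f1.elim
    · intro f
      exact ⟨.inl m, by simp only [R]; omega, (e m).2 rfl⟩
  have hx1 : 1 ≤ x := by omega
  have d1 := gen 1 x hx1 x1 z1
  have d2 := gen 2 (x + 1) (by omega) z2 y2
  have d3 := next 0 (x + 2) (by omega) (fun j => ⟨fun ⟨e0, e1, e2⟩ => by
    rw [d1] at e1
    rw [d2] at e2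
    by_contra f
    obtain rfl : j = x := by omega
    exact x0 e0, fun e => e ▸ ⟨y0, y1, y2⟩⟩)
  refine ⟨h1, x, hx1, ?_⟩
  have : ∀ k, (∀ j, Sat R V (del (k + 1)) (.inl j) ↔ (j = x + k ∨ x + k + 2 ≤ j)) ∧
      (∀ j, Sat R V (del (k + 2)) (.inl j) ↔ (j = x + k + 1 ∨ x + k + 3 ≤ j)) ∧
      (∀ j, Sat R V (del (k + 3)) (.inl j) ↔ (j = x + k + 2 ∨ x + k + 4 ≤ j)) := by
    intro k
    induction k with
    | zero => exact ⟨d1, d2, d3⟩
    | succ k i =>
      refine ⟨i.2.1, i.2.2, next (k + 1) (x + k + 3) (by omega) (fun j => ?_)⟩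
      rw [i.1, i.2.1, i.2.2]
      omega
  exact fun k => (this k).1

def tail (k : ℕ) : ℕ → Fm
  | 0 => del (k + 1)
  | i + 1 => .and (tail k i) (.neg (del (k + i + 2)))

theorem sat_tail {X : Type} (S : X → X → Prop) (V : ℕ → Set X) (k N : ℕ) (w : X) :
    Sat S V (tail k N) w ↔ Sat S V (del (k + 1)) w ∧ ∀ i < N, ¬ Sat S V (del (k + i + 2)) w := by
  induction N with
  | zero => simp [tail]
  | succ N i => simp only [tail, Sat, i, Nat.forall_lt_succ_right, and_assoc]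

def V0 : ℕ → Set W
  | 0 => {.inl 1}
  | 1 => {.inl 2}
  | 2 => {.inl 3}
  | 3 => {.inr ⟨(2, 0), le_rfl⟩}
  | 4 => {.inr ⟨(1, 1), le_rfl⟩}
  | _ => {.inr ⟨(0, 2), le_rfl⟩}

theorem psi_sat : Sat R V0 psi (.inr ⟨(0, 0), by simp⟩) := by
  simp only [psi, Sat, sat_dia, nd, del, V0, Set.mem_singleton_iff, exists_eq_right]
  refine ⟨⟨.inr ⟨(1, 1), le_rfl⟩, by simp [R]⟩, ⟨.inr ⟨(0, 2), le_rfl⟩, by simp [R]⟩,
    .inr ⟨(2, 0), le_rfl⟩, by simp [R], rfl, by simp [R], by simp [R], ⟨.inl 2, by simp [R]⟩,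
    ⟨.inl 4, by simp [R]⟩, .inl 3, by simp [R]⟩

theorem result (n : ℕ) (hn : 2 ≤ n) :
    ∃ L, IsExt (Log (fun u v : Fin n → ℕ => ∀ i, u i ≤ v i)) L ∧ ¬ FMP L := by
  obtain ⟨n, rfl⟩ := Nat.exists_eq_add_of_le' hn
  refine ⟨Log R, ⟨ext n, fun φ σ h V w => (sat_sub _ _ _ _ _).2 (h _ _), fun φ ψ h1 h2 V w => ?_,
    fun φ h V w x _ => h V x⟩, fun h => ?_⟩
  · have := h2 V w
    have := h1 V w
    simp only [imp, Sat] at *
    tauto
  · obtain ⟨m, S, h1, h2⟩ := h (.neg psi) (fun e => e V0 _ psi_sat)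
    simp only [Log, Set.mem_ofPred_eq, Sat, not_forall, not_not] at h2
    obtain ⟨V, w, hw⟩ := h2
    have : ∀ k, ∃ x, Sat S V (tail k (m + 1)) x := by
      intro k
      have e : imp psi (dia (tail k (m + 1))) ∈ Log R := by
        rintro V' w' ⟨f1, f2⟩
        obtain ⟨g1, m', _, g2⟩ := main V' w' f1
        refine f2 ((sat_dia _ _ _ _).2 ⟨.inl (m' + k), g1 _, (sat_tail _ _ _ _ _).2
          ⟨(g2 k _).2 (.inl rfl), fun i _ f => ?_⟩⟩)
        have := (g2 (k + i + 1) _).1 f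
        omega
      have := h1 e V w
      simp only [imp, Sat, not_and, not_not, sat_dia] at this
      obtain ⟨x, _, hx⟩ := this hw
      exact ⟨x, hx⟩
    choose x hx using this
    simp only [sat_tail] at hx
    have inj : ∀ a b : Fin (m + 1), a < b → x a ≠ x b := by
      intro a b hab e
      have := (hx a).2 (b - a - 1) (by omega)
      rw [Fin.lt_def] at hab
      rw [e, show a.val + (b.val - a.val - 1) + 2 = b.val + 1 by omega] at this
      exact this (hx b).1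
    have := Fintype.card_le_of_injective (fun a : Fin (m + 1) => x a) (fun a b e => by
      by_contra f
      rcases lt_or_gt_of_ne f with f | f
      · exact inj a b f e
      · exact inj b a f e.symm)
    simp at this

end Pool.Agent.Results.MP_1909e4_lc.No
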